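import Pool.Agent.Y196.JX.Stm2
import Pool.Agent.Y196.JX.Tv

/-!
# JX2, SUPP and ENT: support and entropy rate
-/

set_option autoImplicit false

namespace Pool.Agent.Y418.JX

open Finset H942JM Filter Topology Pool.Agent.Y196.JX

lemma law_succ_ne {μ : ℤ →₀ ℝ} {a : ℤ} {n : ℕ} {x : ℤ} (h : law μ a (n + 1) x ≠ 0) :
    ∃ y b : ℤ, law μ a n y ≠ 0 ∧ μ b ≠ 0 ∧ x = a * y + b := by
  by_contra hno
  push Not at hno
  apply h
  rw [law]
  unfold Finsupp.sum
  rw [Finsupp.finsetSum_apply]
  refine Finset.sum_eq_zero fun y hy => ?_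
  rw [Finsupp.finsetSum_apply]
  refine Finset.sum_eq_zero fun b hb => ?_
  rw [Finsupp.single_apply, if_neg]
  intro hx
  exact hno y b (Finsupp.mem_support_iff.1 hy) (Finsupp.mem_support_iff.1 hb) hx.symm

theorem supp : S_SUPP := by
  intro μ a ha
  obtain ⟨B, hB⟩ : ∃ B : ℕ, ∀ b : ℤ, μ b ≠ 0 → |b| ≤ (B : ℤ) := by
    refine ⟨μ.support.sup fun b => b.natAbs, fun b hb => ?_⟩
    have h1 : b.natAbs ≤ μ.support.sup fun b => b.natAbs :=
      Finset.le_sup (f := fun b : ℤ => b.natAbs) (Finsupp.mem_support_iff.2 hb)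
    rw [Int.abs_eq_natAbs]
    exact_mod_cast h1
  refine ⟨B + 1, Nat.succ_pos _, ?_⟩
  have haZ : (2 : ℤ) ≤ a := by exact_mod_cast ha
  have hB0 : (0 : ℤ) ≤ B := Int.natCast_nonneg _
  have key : ∀ (n : ℕ) (x : ℤ), law μ (a : ℤ) n x ≠ 0 → |x| + B ≤ ((B : ℤ) + 1) * (a : ℤ) ^ n := by
    intro n
    induction n with
    | zero =>
      intro x hx
      rw [law, Finsupp.single_apply] at hx
      split_ifs at hx with h0
      · rw [← h0]
        simp
      · exact absurd rfl hx
    | succ n ih =>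
      intro x hx
      obtain ⟨y, b, hy, hb, rfl⟩ := law_succ_ne hx
      have h1 := ih y hy
      have h2 := hB b hb
      have h3 : |(a : ℤ) * y + b| ≤ a * |y| + |b| := by
        refine (abs_add_le _ _).trans ?_
        rw [abs_mul, abs_of_nonneg (by linarith : (0 : ℤ) ≤ a)]
      have h4 : (a : ℤ) * (|y| + B) ≤ a * (((B : ℤ) + 1) * (a : ℤ) ^ n) :=
        mul_le_mul_of_nonneg_left h1 (by linarith)
      rw [pow_succ]
      nlinarith
  intro n x hx
  have h := key n x hx
  push_cast
  linarith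

theorem ent (hMAXP : S_MAXP) : S_ENT := by
  intro μ a J h0 h1 ha hd
  have haR : (0 : ℝ) < a := by exact_mod_cast (by omega : 0 < a)
  have ha1 : (1 : ℝ) ≤ a := by exact_mod_cast (by omega : 1 ≤ a)
  obtain ⟨D, hD, hsupp⟩ := supp μ a ha
  have hDR : (1 : ℝ) ≤ D := by exact_mod_cast hD
  have hlow : ∀ n : ℕ, ((n : ℝ) - J) * Real.log a ≤ entropy (law μ (a : ℤ) n) := by
    intro n
    have hPt : ∑ x ∈ (law μ (a : ℤ) n).support, law μ (a : ℤ) n x = 1 := law_total h1 _ _
    unfold entropy Finsupp.sum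
    calc ((n : ℝ) - J) * Real.log a
        = ∑ x ∈ (law μ (a : ℤ) n).support, law μ (a : ℤ) n x * (((n : ℝ) - J) * Real.log a) := by
          rw [← Finset.sum_mul, hPt, one_mul]
      _ ≤ _ := by
          refine Finset.sum_le_sum fun x hx => ?_
          have hp0 : 0 ≤ law μ (a : ℤ) n x := law_nonneg h0 _ _ _
          have hp : 0 < law μ (a : ℤ) n x :=
            lt_of_le_of_ne hp0 (Ne.symm (Finsupp.mem_support_iff.1 hx))
          refine mul_le_mul_of_nonneg_left ?_ hp0
          have h2 := hMAXP μ a J h0 h1 ha hd n x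
          have h3 : Real.log (law μ (a : ℤ) n x) ≤ J * Real.log a - n * Real.log a := by
            refine (Real.log_le_log hp h2).trans ?_
            rw [Real.log_div (pow_pos haR _).ne' (pow_pos haR _).ne', Real.log_pow, Real.log_pow]
          rw [one_div, Real.log_inv]
          linarith
  have hup : ∀ n : ℕ, entropy (law μ (a : ℤ) n) ≤ Real.log (3 * D) + n * Real.log a := by
    intro n
    have hPt : ∑ x ∈ (law μ (a : ℤ) n).support, law μ (a : ℤ) n x = 1 := law_total h1 _ _
    set M : ℝ := 3 * D * (a : ℝ) ^ n with hM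
    have hapos : (1 : ℝ) ≤ (a : ℝ) ^ n := one_le_pow₀ ha1
    have hMpos : 0 < M := by positivity
    have hcard : (((law μ (a : ℤ) n).support.card : ℕ) : ℝ) ≤ M := by
      have hsub : (law μ (a : ℤ) n).support ⊆
          Finset.Icc (-((D : ℤ) * (a : ℤ) ^ n)) ((D : ℤ) * (a : ℤ) ^ n) := by
        intro x hx
        have := abs_le.1 (hsupp n x (Finsupp.mem_support_iff.1 hx))
        exact Finset.mem_Icc.2 this
      have h2 := Finset.card_le_card hsub
      rw [Int.card_Icc] at h2
      have h3 : (((law μ (a : ℤ) n).support.card : ℕ) : ℤ) ≤ 2 * ((D : ℤ) * (a : ℤ) ^ n) + 1 := by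
        have h4 : (0 : ℤ) ≤ (D : ℤ) * (a : ℤ) ^ n := by positivity
        omega
      have h5 : (((law μ (a : ℤ) n).support.card : ℕ) : ℝ) ≤ 2 * ((D : ℝ) * (a : ℝ) ^ n) + 1 := by
        exact_mod_cast h3
      have h6 : (1 : ℝ) ≤ (D : ℝ) * (a : ℝ) ^ n := by nlinarith
      rw [hM]
      linarith
    have hlogM : Real.log M = Real.log (3 * D) + n * Real.log a := by
      rw [hM, Real.log_mul (by positivity) (by positivity), Real.log_pow]
    rw [← hlogM]
    unfold entropy Finsupp.sum
    have h7 : ∀ x ∈ (law μ (a : ℤ) n).support,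
        law μ (a : ℤ) n x * Real.log (1 / law μ (a : ℤ) n x) ≤
          law μ (a : ℤ) n x * Real.log M + (1 / M - law μ (a : ℤ) n x) := by
      intro x hx
      have hp0 : 0 ≤ law μ (a : ℤ) n x := law_nonneg h0 _ _ _
      have hp : 0 < law μ (a : ℤ) n x :=
        lt_of_le_of_ne hp0 (Ne.symm (Finsupp.mem_support_iff.1 hx))
      have h8 : Real.log (1 / (law μ (a : ℤ) n x * M)) ≤ 1 / (law μ (a : ℤ) n x * M) - 1 :=
        Real.log_le_sub_one_of_pos (by positivity)
      have h9 : Real.log (1 / law μ (a : ℤ) n x) =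
          Real.log M + Real.log (1 / (law μ (a : ℤ) n x * M)) := by
        rw [one_div, one_div, Real.log_inv, Real.log_inv, Real.log_mul hp.ne' hMpos.ne']
        ring
      rw [h9, mul_add]
      have h10 : law μ (a : ℤ) n x * Real.log (1 / (law μ (a : ℤ) n x * M)) ≤
          law μ (a : ℤ) n x * (1 / (law μ (a : ℤ) n x * M) - 1) :=
        mul_le_mul_of_nonneg_left h8 hp0
      have h11 : law μ (a : ℤ) n x * (1 / (law μ (a : ℤ) n x * M) - 1) =
          1 / M - law μ (a : ℤ) n x := by
        field_simp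
      linarith
    refine (Finset.sum_le_sum h7).trans ?_
    rw [Finset.sum_add_distrib, ← Finset.sum_mul, hPt, Finset.sum_sub_distrib, hPt,
      Finset.sum_const, nsmul_eq_mul]
    have h12 : (((law μ (a : ℤ) n).support.card : ℕ) : ℝ) * (1 / M) ≤ 1 := by
      rw [mul_one_div, div_le_one hMpos]
      exact hcard
    linarith
  have hlim : Tendsto (fun n : ℕ => entropy (law μ (a : ℤ) n) / (n : ℝ)) atTop
      (𝓝 (Real.log a)) := by
    have hl1 : Tendsto (fun n : ℕ => Real.log a - (J * Real.log a) / (n : ℝ)) atTop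
        (𝓝 (Real.log a)) := by
      have := (tendsto_const_div_atTop_nhds_zero_nat (J * Real.log a)).const_sub (Real.log a)
      simpa using this
    have hl2 : Tendsto (fun n : ℕ => Real.log a + Real.log (3 * D) / (n : ℝ)) atTop
        (𝓝 (Real.log a)) := by
      have := (tendsto_const_div_atTop_nhds_zero_nat (Real.log (3 * D))).const_add (Real.log a)
      simpa using this
    refine tendsto_of_tendsto_of_tendsto_of_le_of_le' hl1 hl2 ?_ ?_
    · filter_upwards [eventually_gt_atTop 0] with n hn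
      have hnR : (0 : ℝ) < n := by exact_mod_cast hn
      rw [le_div_iff₀ hnR, sub_mul, div_mul_cancel₀ _ hnR.ne']
      have := hlow n
      linarith
    · filter_upwards [eventually_gt_atTop 0] with n hn
      have hnR : (0 : ℝ) < n := by exact_mod_cast hn
      rw [div_le_iff₀ hnR, add_mul, div_mul_cancel₀ _ hnR.ne']
      have := hup n
      linarith
  unfold entropyRate
  exact hlim.limUnder_eq

end Pool.Agent.Y418.JX
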