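import Pool.Agent.Y196.JX.Stm2
import Pool.Agent.Y196.JX.Tv

/-!
# JX2, MAXP: bounded densities
-/

set_option autoImplicit false

namespace Pool.Agent.Y418.JX

open Finset H942JM Filter Topology Pool.Agent.Y196.JX

/-- orthogonality -/
lemma cos_sum (q : ℕ) (hq : 0 < q) (z : ℤ) :
    ∑ c ∈ range q, Real.cos (2 * Real.pi * ((c : ℝ) / q) * z) = if (q : ℤ) ∣ z then (q : ℝ) else 0 := by
  have hqR : (q : ℝ) ≠ 0 := by exact_mod_cast hq.ne'
  split_ifs with h
  · obtain ⟨w, rfl⟩ := h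
    have h1 : ∀ c ∈ range q, Real.cos (2 * Real.pi * ((c : ℝ) / q) * ((q * w : ℤ) : ℝ)) = 1 := by
      intro c _
      have e : 2 * Real.pi * ((c : ℝ) / q) * ((q * w : ℤ) : ℝ)
          = ((c * w : ℤ) : ℝ) * (2 * Real.pi) := by
        push_cast
        field_simp
      rw [e, Real.cos_int_mul_two_pi]
    rw [Finset.sum_congr rfl h1]
    simp
  · have h2 := cos_sum_zero q ((z : ℝ) / q) ⟨z, by field_simp⟩ (by
      intro w hw
      apply h
      refine ⟨w, ?_⟩
      have : (z : ℝ) = q * w := by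
        rw [← hw]
        field_simp
      exact_mod_cast this)
    rw [← h2]
    refine Finset.sum_congr rfl fun c _ => ?_
    congr 1
    ring

lemma re_term (P : ℤ →₀ ℝ) (θ : ℝ) (x : ℤ) :
    (chf P θ * Complex.exp (2 * Real.pi * Complex.I * θ * ((-x : ℤ) : ℂ))).re =
      ∑ y ∈ P.support, P y * Real.cos (2 * Real.pi * θ * ((y - x : ℤ) : ℝ)) := by
  rw [chf_eq, Finset.sum_mul, Complex.re_sum]
  refine Finset.sum_congr rfl fun y _ => ?_
  have e : (P y : ℂ) * Complex.exp (2 * Real.pi * Complex.I * θ * y) *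
      Complex.exp (2 * Real.pi * Complex.I * θ * ((-x : ℤ) : ℂ))
      = ((P y : ℝ) : ℂ) * Complex.exp (((2 * Real.pi * θ * ((y - x : ℤ) : ℝ) : ℝ) : ℂ)
        * Complex.I) := by
    rw [mul_assoc, ← Complex.exp_add]
    congr 2
    push_cast
    ring
  rw [e, Complex.re_ofReal_mul, Complex.exp_ofReal_mul_I_re]

/-- the density at a point is at most the mean of the characteristic function -/
lemma dens_le (P : ℤ →₀ ℝ) (h0 : ∀ x, 0 ≤ P x) (q : ℕ) (hq : 0 < q) (x : ℤ) :
    (q : ℝ) * P x ≤ ∑ c ∈ range q, ‖chf P ((c : ℝ) / q)‖ := by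
  have h1 : ∑ c ∈ range q, (chf P ((c : ℝ) / q) *
      Complex.exp (2 * Real.pi * Complex.I * (((c : ℝ) / q : ℝ) : ℂ) * ((-x : ℤ) : ℂ))).re
      ≤ ∑ c ∈ range q, ‖chf P ((c : ℝ) / q)‖ := by
    refine Finset.sum_le_sum fun c _ => ?_
    refine (Complex.re_le_norm _).trans ?_
    rw [norm_mul, norm_exp_eq, mul_one]
  refine le_trans ?_ h1
  simp only [re_term]
  rw [Finset.sum_comm]
  have h2 : ∀ y ∈ P.support, ∑ c ∈ range q, P y * Real.cos (2 * Real.pi * ((c : ℝ) / q)
      * ((y - x : ℤ) : ℝ)) = P y * if (q : ℤ) ∣ y - x then (q : ℝ) else 0 := by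
    intro y _
    rw [← Finset.mul_sum, cos_sum q hq]
  rw [Finset.sum_congr rfl h2]
  by_cases hx : x ∈ P.support
  · have h3 := Finset.single_le_sum (s := P.support)
      (f := fun y : ℤ => P y * if (q : ℤ) ∣ y - x then (q : ℝ) else 0)
      (fun y _ => mul_nonneg (h0 y) (by split_ifs <;> positivity)) hx
    simp only [sub_self, dvd_zero, if_true] at h3
    rw [mul_comm]
    exact h3
  · rw [Finsupp.notMem_support_iff.1 hx, mul_zero]
    exact Finset.sum_nonneg fun y _ => mul_nonneg (h0 y) (by split_ifs <;> positivity)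

/-- the zeros of the characteristic function of the law -/
lemma chf_zero_of (μ : ℤ →₀ ℝ) (a J : ℕ) (ha : 2 ≤ a) (hd : Degen μ a J) (n c : ℕ) (hJ : J ≤ n)
    (hc : ¬ a ^ (n - J) ∣ c) : chf (law μ (a : ℤ) n) ((c : ℝ) / (a : ℝ) ^ n) = 0 := by
  have haR : (0 : ℝ) < a := by exact_mod_cast (by omega : 0 < a)
  have hc0 : c ≠ 0 := by
    rintro rfl
    exact hc (dvd_zero _)
  obtain ⟨v, c', hc', hcv⟩ := Nat.exists_eq_pow_mul_and_not_dvd hc0 a (by omega)
  have hv : v < n - J := by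
    by_contra h
    exact hc (hcv ▸ (pow_dvd_pow a (not_lt.1 h)).mul_right c')
  obtain ⟨k, hk, hz⟩ := hd (c' : ℤ) (by exact_mod_cast hc')
  rw [lawProd]
  refine Finset.prod_eq_zero (i := n - v - k - 1) (Finset.mem_range.2 (by omega)) ?_
  have e : ((a : ℤ) : ℝ) ^ (n - v - k - 1) * ((c : ℝ) / (a : ℝ) ^ n)
      = ((c' : ℤ) : ℝ) / (a : ℝ) ^ (k + 1) := by
    have h1 : (a : ℝ) ^ n = (a : ℝ) ^ (n - v - k - 1) * (a : ℝ) ^ v * (a : ℝ) ^ (k + 1) := by
      rw [← pow_add, ← pow_add]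
      congr 1
      omega
    have h2 : (a : ℝ) ^ (n - v - k - 1) ≠ 0 := (pow_pos haR _).ne'
    have h3 : (a : ℝ) ^ v ≠ 0 := (pow_pos haR _).ne'
    have h4 : (a : ℝ) ^ (k + 1) ≠ 0 := (pow_pos haR _).ne'
    rw [h1, hcv]
    push_cast
    field_simp
  rw [e]
  exact hz

theorem maxp : S_MAXP := by
  intro μ a J h0 h1 ha hd n x
  have haR : (0 : ℝ) < a := by exact_mod_cast (by omega : 0 < a)
  have ha1 : (1 : ℝ) ≤ a := by exact_mod_cast (by omega : 1 ≤ a)
  set P := law μ (a : ℤ) n with hP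
  have hP0 : ∀ y, 0 ≤ P y := fun y => law_nonneg h0 _ _ _
  have hPt : (P.sum fun _ p => p) = 1 := law_total h1 _ _
  have hle1 : P x ≤ 1 := by
    by_cases hx : x ∈ P.support
    · rw [← hPt]
      exact Finset.single_le_sum (s := P.support) (f := fun y => P y) (fun y _ => hP0 y) hx
    · rw [Finsupp.notMem_support_iff.1 hx]
      exact zero_le_one
  rcases lt_or_ge n J with hn | hn
  · refine hle1.trans ?_
    rw [le_div_iff₀ (pow_pos haR _), one_mul]
    exact pow_le_pow_right₀ ha1 hn.le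
  · have hq : 0 < a ^ n := pow_pos (by omega) n
    have h2 := dens_le P hP0 (a ^ n) hq x
    have h3 : ∑ c ∈ range (a ^ n), ‖chf P ((c : ℝ) / ((a ^ n : ℕ) : ℝ))‖ ≤ (a : ℝ) ^ J := by
      have h4 : ∀ c ∈ range (a ^ n), ‖chf P ((c : ℝ) / ((a ^ n : ℕ) : ℝ))‖ ≤
          if a ^ (n - J) ∣ c then (1 : ℝ) else 0 := by
        intro c _
        split_ifs with h
        · exact chf_norm_le hP0 hPt _
        · push_cast
          rw [hP, chf_zero_of μ a J ha hd n c hn h, norm_zero]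
      refine (Finset.sum_le_sum h4).trans ?_
      rw [← Finset.sum_filter, Finset.sum_const, nsmul_eq_mul, mul_one]
      have h5 : (range (a ^ n)).filter (fun c => a ^ (n - J) ∣ c) ⊆
          (range (a ^ J)).image fun d => a ^ (n - J) * d := by
        intro c hc
        obtain ⟨hc1, d, hd'⟩ := Finset.mem_filter.1 hc
        refine Finset.mem_image.2 ⟨d, ?_, hd'.symm⟩
        rw [Finset.mem_range] at hc1 ⊢
        by_contra hlt
        have h6 : a ^ (n - J) * a ^ J ≤ a ^ (n - J) * d := Nat.mul_le_mul_left _ (not_lt.1 hlt)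
        rw [← pow_add, Nat.sub_add_cancel hn, ← hd'] at h6
        omega
      have h7 := (Finset.card_le_card h5).trans Finset.card_image_le
      rw [Finset.card_range] at h7
      exact_mod_cast h7
    rw [le_div_iff₀ (pow_pos haR _), mul_comm]
    have h8 := h2.trans h3
    push_cast at h8
    exact h8

end Pool.Agent.Y418.JX
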