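import Pool.Agent.Y196.JX.Stm2
import Pool.Agent.Y196.JX.Tv
import Pool.Agent.Y418.JX.Maxp

/-!
# JX2, PARS and TVL2: bounds in mean square
-/

set_option autoImplicit false

namespace Pool.Agent.Y418.JX

open Finset H942JM Filter Topology Pool.Agent.Y196.JX

/-- the mean square of the characteristic function at the points `c / q` -/
lemma mean_sq (P : ℤ →₀ ℝ) (q : ℕ) (hq : 0 < q) :
    ∑ c ∈ range q, ‖chf P ((c : ℝ) / q)‖ ^ 2 =
      ∑ x ∈ P.support, P x * ∑ y ∈ P.support, P y * if (q : ℤ) ∣ x - y then (q : ℝ) else 0 := by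
  have h1 : ∀ c ∈ range q, ‖chf P ((c : ℝ) / q)‖ ^ 2 =
      ∑ x ∈ P.support, ∑ y ∈ P.support,
        P x * P y * Real.cos (2 * Real.pi * ((c : ℝ) / q) * ((x - y : ℤ) : ℝ)) := by
    intro c _
    rw [← e2cos]
    rfl
  rw [Finset.sum_congr rfl h1, Finset.sum_comm]
  refine Finset.sum_congr rfl fun x _ => ?_
  rw [Finset.sum_comm, Finset.mul_sum]
  refine Finset.sum_congr rfl fun y _ => ?_
  rw [← Finset.mul_sum, cos_sum q hq, mul_assoc]

lemma count_le (M : ℤ) (hM : 0 ≤ M) (q : ℕ) (hq : 0 < q) (x : ℤ) (s : Finset ℤ)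
    (hs : ∀ y ∈ s, |y| ≤ M ∧ (q : ℤ) ∣ x - y) : (s.card : ℝ) ≤ (2 * M + 1) / q + 1 := by
  have hqZ : (0 : ℤ) < q := by exact_mod_cast hq
  have hqQ : (0 : ℚ) < q := by exact_mod_cast hq
  have hsub : s ⊆ (Finset.Ioc (-M - 1) M).filter fun y => y ≡ x [ZMOD (q : ℤ)] := by
    intro y hy
    obtain ⟨h1, h2⟩ := hs y hy
    have h3 := abs_le.1 h1
    refine Finset.mem_filter.2 ⟨Finset.mem_Ioc.2 ⟨by linarith [h3.1], h3.2⟩, ?_⟩
    exact (Int.modEq_iff_dvd).2 h2
  have h4 := Finset.card_le_card hsub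
  have h5 := Int.Ioc_filter_modEq_card (-M - 1) M hqZ x
  have h6 : ((s.card : ℕ) : ℤ) ≤ max (⌊((M : ℚ) - x) / (q : ℤ)⌋ -
      ⌊(((-M - 1 : ℤ) : ℚ) - x) / (q : ℤ)⌋) 0 := by
    rw [← h5]
    exact_mod_cast h4
  have h7 : ((⌊((M : ℚ) - x) / (q : ℤ)⌋ - ⌊(((-M - 1 : ℤ) : ℚ) - x) / (q : ℤ)⌋ : ℤ) : ℚ) ≤
      (2 * M + 1) / q + 1 := by
    have h8 := Int.floor_le (((M : ℚ) - x) / (q : ℤ))
    have h9 := Int.lt_floor_add_one ((((-M - 1 : ℤ) : ℚ) - x) / (q : ℤ))
    push_cast at h8 h9 ⊢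
    have h10 : ((M : ℚ) - x) / q - (-M - 1 - x) / q = (2 * M + 1) / q := by
      field_simp
      ring
    linarith
  have h11 : (0 : ℚ) ≤ (2 * M + 1) / q + 1 := by
    have : (0 : ℚ) ≤ M := by exact_mod_cast hM
    positivity
  have h12 : ((s.card : ℕ) : ℚ) ≤ (2 * M + 1) / q + 1 := by
    have h13 : (((s.card : ℕ) : ℤ) : ℚ) ≤ ((max (⌊((M : ℚ) - x) / (q : ℤ)⌋ -
      ⌊(((-M - 1 : ℤ) : ℚ) - x) / (q : ℤ)⌋) 0 : ℤ) : ℚ) := by exact_mod_cast h6
    rw [Int.cast_natCast] at h13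
    refine h13.trans ?_
    rw [Int.cast_max]
    refine max_le h7 ?_
    simpa using h11
  have h14 : (((s.card : ℕ) : ℚ) : ℝ) ≤ (((2 * M + 1) / q + 1 : ℚ) : ℝ) := by exact_mod_cast h12
  push_cast at h14
  exact h14

theorem pars (hMAXP : S_MAXP) (hSUPP : S_SUPP) : S_PARS := by
  intro μ a J h0 h1 ha hd
  have haR : (0 : ℝ) < a := by exact_mod_cast (by omega : 0 < a)
  have ha1 : (1 : ℝ) ≤ a := by exact_mod_cast (by omega : 1 ≤ a)
  obtain ⟨D, hD, hsupp⟩ := hSUPP μ a ha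
  have hDR : (1 : ℝ) ≤ D := by exact_mod_cast hD
  refine ⟨(a : ℝ) ^ J * (2 * D + 1), by positivity, fun n q hq => ?_⟩
  have hqR : (0 : ℝ) < q := by exact_mod_cast hq
  set P := law μ (a : ℤ) n with hP
  have hP0 : ∀ y, 0 ≤ P y := fun y => law_nonneg h0 _ _ _
  have hPt : ∑ x ∈ P.support, P x = 1 := law_total h1 _ _
  have hA : (1 : ℝ) ≤ (a : ℝ) ^ n := one_le_pow₀ ha1
  have hApos : (0 : ℝ) < (a : ℝ) ^ n := pow_pos haR _
  rw [mean_sq P q hq]
  have hin : ∀ x ∈ P.support, (∑ y ∈ P.support, P y * if (q : ℤ) ∣ x - y then (q : ℝ) else 0) ≤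
      (a : ℝ) ^ J * (2 * D + 1) * (1 + q / (a : ℝ) ^ n) := by
    intro x _
    have h2 : ∀ y ∈ P.support, (P y * if (q : ℤ) ∣ x - y then (q : ℝ) else 0) ≤
        if (q : ℤ) ∣ x - y then ((a : ℝ) ^ J / (a : ℝ) ^ n) * q else 0 := by
      intro y _
      split_ifs
      · exact mul_le_mul_of_nonneg_right (hMAXP μ a J h0 h1 ha hd n y) hqR.le
      · rw [mul_zero]
    refine (Finset.sum_le_sum h2).trans ?_
    rw [← Finset.sum_filter, Finset.sum_const, nsmul_eq_mul]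
    have h3 := count_le ((D : ℤ) * (a : ℤ) ^ n) (by positivity) q hq x
      (P.support.filter fun y => (q : ℤ) ∣ x - y) (fun y hy => by
        obtain ⟨h4, h5⟩ := Finset.mem_filter.1 hy
        exact ⟨hsupp n y (Finsupp.mem_support_iff.1 h4), h5⟩)
    push_cast at h3
    have h6 : 0 ≤ ((a : ℝ) ^ J / (a : ℝ) ^ n) * q := by positivity
    refine (mul_le_mul_of_nonneg_right h3 h6).trans ?_
    have h7 : ((2 * ((D : ℝ) * (a : ℝ) ^ n) + 1) / q + 1) * (((a : ℝ) ^ J / (a : ℝ) ^ n) * q) =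
        (a : ℝ) ^ J * (2 * D + 1 / (a : ℝ) ^ n + q / (a : ℝ) ^ n) := by
      field_simp
    rw [h7, mul_assoc]
    refine mul_le_mul_of_nonneg_left ?_ (by positivity)
    have h8 : 1 / (a : ℝ) ^ n ≤ 1 := by
      rw [div_le_one hApos]
      exact hA
    have h9 : 0 ≤ (q : ℝ) / (a : ℝ) ^ n := by positivity
    nlinarith
  calc ∑ x ∈ P.support, P x * ∑ y ∈ P.support, P y * (if (q : ℤ) ∣ x - y then (q : ℝ) else 0)
      ≤ ∑ x ∈ P.support, P x * ((a : ℝ) ^ J * (2 * D + 1) * (1 + q / (a : ℝ) ^ n)) :=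
        Finset.sum_le_sum fun x hx => mul_le_mul_of_nonneg_left (hin x hx) (hP0 x)
    _ = _ := by rw [← Finset.sum_mul, hPt, one_mul]

theorem tvl2 : S_TVL2 := by
  intro μ h0 h1 a q n hq
  have hqR : (0 : ℝ) < q := by exact_mod_cast hq
  set P := law μ a n with hP
  have hP0 : ∀ y, 0 ≤ P y := fun y => law_nonneg h0 _ _ _
  have hPt : (P.sum fun _ p => p) = 1 := law_total h1 _ _
  have hmass : ∑ r ∈ range q, residueMass P q r = 1 := by
    have h := sum_residueMass P q hq (fun _ => 1) (fun _ _ _ => rfl)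
    simp only [mul_one] at h
    rw [h]
    unfold E
    simp only [mul_one]
    exact hPt
  -- the mean square of the masses
  let f : ℤ → ℝ := fun x => ∑ y ∈ P.support, P y * if (q : ℤ) ∣ x - y then (1 : ℝ) else 0
  have hf : ∀ x y : ℤ, (q : ℤ) ∣ x - y → f x = f y := by
    intro x y h
    refine Finset.sum_congr rfl fun z _ => ?_
    congr 1
    have e : ((q : ℤ) ∣ x - z) ↔ ((q : ℤ) ∣ y - z) := by
      constructor
      · intro h2
        have := dvd_sub h2 h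
        rwa [show x - z - (x - y) = y - z by ring] at this
      · intro h2
        have := dvd_add h2 h
        rwa [show y - z + (x - y) = x - z by ring] at this
    simp only [e]
  have hfr : ∀ r : ℕ, f (r : ℤ) = residueMass P q r := by
    intro r
    unfold residueMass Finsupp.sum
    refine Finset.sum_congr rfl fun y _ => ?_
    have e : ((q : ℤ) ∣ (r : ℤ) - y) ↔ ((q : ℤ) ∣ y - r) := by
      rw [← dvd_neg, neg_sub]
    simp only [e, mul_ite, mul_one, mul_zero]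
  have hsq : (q : ℝ) * ∑ r ∈ range q, residueMass P q r ^ 2 =
      ∑ c ∈ range q, ‖chf P ((c : ℝ) / q)‖ ^ 2 := by
    have h2 := sum_residueMass P q hq f hf
    rw [mean_sq P q hq]
    have h3 : ∑ r ∈ range q, residueMass P q r ^ 2 = E P f := by
      rw [← h2]
      refine Finset.sum_congr rfl fun r _ => ?_
      rw [hfr, sq]
    rw [h3]
    unfold E Finsupp.sum
    rw [Finset.mul_sum]
    refine Finset.sum_congr rfl fun x _ => ?_
    simp only [f]
    rw [Finset.mul_sum, Finset.mul_sum, Finset.mul_sum]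
    refine Finset.sum_congr rfl fun y _ => ?_
    split_ifs <;> ring
  have h0q : (0 : ℕ) ∈ range q := Finset.mem_range.2 hq
  have hsplit : ∑ c ∈ range q, ‖chf P ((c : ℝ) / q)‖ ^ 2 =
      1 + ∑ c ∈ (range q).erase 0, ‖chf P ((c : ℝ) / q)‖ ^ 2 := by
    rw [← Finset.add_sum_erase (range q) _ h0q]
    congr 1
    simp only [Nat.cast_zero, zero_div]
    rw [chf_zero hPt, norm_one, one_pow]
  have hCS := sq_sum_le_card_mul_sum_sq (s := range q)
    (f := fun r : ℕ => |residueMass P q r - 1 / (q : ℝ)|)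
  rw [Finset.card_range] at hCS
  have hvar : (q : ℝ) * ∑ r ∈ range q, |residueMass P q r - 1 / (q : ℝ)| ^ 2 =
      ∑ c ∈ (range q).erase 0, ‖chf P ((c : ℝ) / q)‖ ^ 2 := by
    have h4 : ∑ r ∈ range q, |residueMass P q r - 1 / (q : ℝ)| ^ 2 =
        ∑ r ∈ range q, residueMass P q r ^ 2 - 1 / q := by
      have h5 : ∀ r ∈ range q, |residueMass P q r - 1 / (q : ℝ)| ^ 2 =
          residueMass P q r ^ 2 - 2 / q * residueMass P q r + 1 / (q : ℝ) ^ 2 := by
        intro r _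
        rw [sq_abs]
        field_simp
        ring
      rw [Finset.sum_congr rfl h5, Finset.sum_add_distrib, Finset.sum_sub_distrib,
        ← Finset.mul_sum, hmass, Finset.sum_const, Finset.card_range, nsmul_eq_mul]
      field_simp
      ring
    rw [h4, mul_sub, hsq, hsplit]
    field_simp
    ring
  rw [hvar] at hCS
  have hpos : 0 ≤ ∑ c ∈ (range q).erase 0, ‖chf P ((c : ℝ) / q)‖ ^ 2 :=
    Finset.sum_nonneg fun c _ => sq_nonneg _
  have htv : (tvDist μ a q n) ^ 2 =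
      1 / 4 * (∑ r ∈ range q, |residueMass P q r - 1 / (q : ℝ)|) ^ 2 := by
    unfold tvDist
    rw [← hP]
    ring
  rw [htv]
  linarith

end Pool.Agent.Y418.JX
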