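import Pool.Agent.Y196.JX.Stm2
import Pool.Agent.Y196.JX.Nd

/-!
# JX2, UNI: uniformity of the zeros
-/

set_option autoImplicit false

namespace Pool.Agent.Y418.JX

open Finset H942JM Filter Topology Pool.Agent.Y196.JX

theorem uni : S_UNI := by
  intro μ a h1 ha hdeg
  have haR : (0 : ℝ) < a := by exact_mod_cast (by omega : 0 < a)
  set A : Set ℕ := {k | ∃ c : ℤ, ¬ ((a : ℤ) ∣ c) ∧ chf μ ((c : ℝ) / (a : ℝ) ^ (k + 1)) = 0}
    with hA
  have hfin : A.Finite := by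
    by_contra hinf
    have hinf' : A.Infinite := hinf
    have hch : ∀ k : ℕ, ∃ c : ℤ, k ∈ A →
        ¬ ((a : ℤ) ∣ c) ∧ chf μ ((c : ℝ) / (a : ℝ) ^ (k + 1)) = 0 := by
      intro k
      by_cases hk : k ∈ A
      · obtain ⟨c, hc⟩ := hk
        exact ⟨c, fun _ => hc⟩
      · exact ⟨0, fun h => absurd h hk⟩
    choose c hc using hch
    let f : ℕ → ℝ := fun k => Int.fract ((c k : ℝ) / (a : ℝ) ^ (k + 1))
    have hlt : ∀ k ∈ A, ∀ k' ∈ A, k < k' → f k ≠ f k' := by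
      intro k hk k' hk' hkk heq
      obtain ⟨z, hz⟩ := Int.fract_eq_fract.1 heq
      apply (hc k' hk').1
      have e1 : (c k' : ℝ) = (c k : ℝ) * (a : ℝ) ^ (k' - k) - z * (a : ℝ) ^ (k' + 1) := by
        have e2 : (a : ℝ) ^ (k' + 1) = (a : ℝ) ^ (k + 1) * (a : ℝ) ^ (k' - k) := by
          rw [← pow_add]
          congr 1
          omega
        have h3 : (a : ℝ) ^ (k + 1) ≠ 0 := (pow_pos haR _).ne'
        have h4 : (a : ℝ) ^ (k' - k) ≠ 0 := (pow_pos haR _).ne'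
        rw [← hz, e2]
        field_simp
        ring
      have e3 : c k' = c k * (a : ℤ) ^ (k' - k) - z * (a : ℤ) ^ (k' + 1) := by
        have : ((c k' : ℤ) : ℝ) = ((c k * (a : ℤ) ^ (k' - k) - z * (a : ℤ) ^ (k' + 1) : ℤ) : ℝ) := by
          push_cast
          exact e1
        exact_mod_cast this
      rw [e3]
      refine dvd_sub ?_ ?_
      · exact Dvd.dvd.mul_left (dvd_pow_self _ (by omega)) _
      · exact Dvd.dvd.mul_left (dvd_pow_self _ (by omega)) _
    have hinj : Set.InjOn f A := by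
      intro k hk k' hk' heq
      rcases lt_trichotomy k k' with h | h | h
      · exact absurd heq (hlt k hk k' hk' h)
      · exact h
      · exact absurd heq.symm (hlt k' hk' k hk h)
    have himg : (f '' A).Infinite := hinf'.image hinj
    have hsub : f '' A ⊆ Set.Icc (0 : ℝ) 1 := by
      rintro _ ⟨k, _, rfl⟩
      exact ⟨Int.fract_nonneg _, (Int.fract_lt_one _).le⟩
    obtain ⟨x, _, hx⟩ := himg.exists_accPt_of_subset_isCompact isCompact_Icc hsub
    have hfr := accPt_iff_frequently_nhdsNE.1 hx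
    refine hfr ?_
    filter_upwards [isolated h1 x] with t ht hmem
    obtain ⟨k, hk, rfl⟩ := hmem
    apply ht
    have h5 := chf_add_int μ (f k) ⌊(c k : ℝ) / (a : ℝ) ^ (k + 1)⌋
    have h6 : f k + (⌊(c k : ℝ) / (a : ℝ) ^ (k + 1)⌋ : ℝ) = (c k : ℝ) / (a : ℝ) ^ (k + 1) :=
      Int.fract_add_floor _
    rw [h6, (hc k hk).2] at h5
    exact h5.symm
  obtain ⟨m, hm⟩ := hfin.bddAbove
  refine ⟨m + 1, fun c hc => ?_⟩
  obtain ⟨k, hk⟩ := hdeg c (fun h => hc (h ▸ dvd_zero _))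
  exact ⟨k, Nat.lt_succ_of_le (hm ⟨c, hc, hk⟩), hk⟩

end Pool.Agent.Y418.JX
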